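import Pool.Agent.N728.QG.Def2
import Pool.Agent.N199.QL.FIN

/-!
Project QH (helper728), part FIN2: from the mean value theorem to the final theorem, full range `T ≤ K B`.
Adapted from `Pool/Agent/N199/QL/FIN.lean`.
-/

set_option autoImplicit false

namespace Pool.Agent.N362.QH

open Finset Pool.Agent.N728.QL Pool.Agent.N199.QL

noncomputable section

theorem nd {a : ℤ} (ha : 0 < a) : (Polynomial.C a * Polynomial.X).natDegree = 1 :=
  Polynomial.natDegree_C_mul_X a ha.ne'

theorem ev (a : ℤ) (t : ℤ) : (Polynomial.C a * Polynomial.X).eval t = a * t := by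
  simp

theorem rge {a : ℤ} (ha : 0 < a) {K B T : ℕ} (h : 3 * (a.natAbs * T + 5 * B) ≤ K * B) :
    Pool.Agent.N728.QG.Rge (Polynomial.C a * Polynomial.X) K B T := by
  intro u hu huT
  rw [ev]
  have h1 : (0 : ℤ) ≤ a * u := by positivity
  have h2 : a * (u : ℤ) ≤ a * T := by gcongr
  have h3 : (3 : ℤ) * (a.natAbs * T + 5 * B) ≤ K * B := by exact_mod_cast h
  rw [Int.natAbs_of_nonneg ha.le] at h3
  constructor
  · have : (0 : ℤ) ≤ B := Int.natCast_nonneg B
    linarith
  · linarith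

/-- (FIN2) from the mean value theorem to the final theorem -/
theorem t_FIN2 (a c : ℤ) (ha : 0 < a) (hc : c ≠ 0)
    (h1 : Pool.Agent.N728.QG.S_MCP2 (Polynomial.C a * Polynomial.X) c)
    (h2 : Pool.Agent.N728.QL.S_LOC)
    (h3 : S_CST a c) (h4 : S_MER) : Pool.Agent.N728.QG.Final2 a c := by
  classical
  intro ε K₁ C2 hε
  obtain ⟨e, he⟩ : ∃ e, e = min (ε / 2) 1 := ⟨_, rfl⟩
  have he0 : 0 < e := by rw [he]; exact lt_min (by positivity) one_pos
  have he1 : e ≤ 1 := by rw [he]; exact min_le_right _ _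
  have heε : 2 * e ≤ ε := by
    have : e ≤ ε / 2 := by rw [he]; exact min_le_left _ _
    linarith
  obtain ⟨K0, hK0, hCST⟩ := h3 (e / 4) (by positivity)
  obtain ⟨J, hJ1, hJK⟩ : ∃ J : ℕ, 1 ≤ J ∧ 16 * K0 ≤ e * J := by
    obtain ⟨n, hn⟩ := exists_nat_ge (16 * K0 / e)
    refine ⟨n + 1, by omega, ?_⟩
    rw [div_le_iff₀ he0] at hn
    push_cast
    nlinarith
  obtain ⟨I, hI⟩ : ∃ I : ℕ, 8 / e ≤ (2 : ℝ) ^ I :=
    pow_unbounded_of_one_lt (8 / e) (by norm_num : (1 : ℝ) < 2) |>.imp fun n hn => hn.le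
  obtain ⟨δ, hδ⟩ : ∃ δ, δ = e / 100 := ⟨_, rfl⟩
  have hδ0 : 0 < δ := by rw [hδ]; positivity
  obtain ⟨K', hK'⟩ : ∃ K' : ℕ, K' = 3 * (a.natAbs * (K₁ * 2 ^ (I + 1)) + 5) := ⟨_, rfl⟩
  have ha1 : 1 ≤ a.natAbs := Int.natAbs_pos.2 ha.ne'
  obtain ⟨z1, hz1⟩ := h1 K' (δ * (e / (8 * (I + 1)))) (1 / 2) (by omega) (by positivity)
    (by norm_num)
  obtain ⟨z2, hz2⟩ := hCST δ hδ0
  obtain ⟨z, hz⟩ : ∃ z, z = max z1 z2 := ⟨_, rfl⟩
  obtain ⟨B1, hB1⟩ := hz1 z (by rw [hz]; exact le_max_left _ _) (C2 + 1)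
  obtain ⟨B2, hB2⟩ := hz2 z (by rw [hz]; exact le_max_right _ _)
  obtain ⟨Cz, hCz, hloc⟩ := h2 a c z
  have hJ' : (1 : ℝ) ≤ J := by exact_mod_cast hJ1
  -- large `B`
  have hev : ∀ᶠ B : ℕ in Filter.atTop, ∀ T : ℕ, (B : ℝ) ≤ T * Real.log B ^ C2 →
      T ≤ K₁ * B →
      (((Icc 1 B).filter (fun b : ℕ => Admissible a b c ∧
        ¬ ∃ K : ℝ, IsC a b c K ∧
          |(count a b c T : ℝ) - 2 * K * ∑ t ∈ Icc 1 T,
            1 / Real.log ((a * (t : ℤ) ^ 2 + b * t + c : ℤ) : ℝ)| ≤
            ε * (T / Real.log T))).card : ℝ) ≤ ε * B := by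
    filter_upwards [Filter.eventually_ge_atTop 1, Filter.eventually_ge_atTop B2,
      Filter.eventually_ge_atTop (2 ^ (I + 1) * B1),
      Filter.eventually_ge_atTop (2 ^ I * (2 * c.natAbs + 1)), ev_ge (8 / e), ev_log 1,
      Filter.eventually_ge_atTop K₁, ev_log (2 * (I + 1) * Real.log 2), ev_log (2 * J * 2 ^ (C2 + 1)),
      ev_log (4 * Real.log (2 * (J : ℝ) ^ 2)),
      ev_log (32 * (2 * K0 + 1) * Real.log (2 * (J : ℝ) ^ 2) / e),
      ev_pow (2 * J + 2) C2, ev_pow (Cz / δ) C2] with B g1 g2 g3 g4 g5 g6 g7 g8 g9 g10 g11 g12 g13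
    intro T hT hT'
    obtain ⟨lam, hlam⟩ : ∃ lam, lam = Real.log (B : ℝ) := ⟨_, rfl⟩
    rw [← hlam] at g6 g8 g9 g10 g11 g12 g13 hT
    have hlam0 : 0 < lam := by linarith
    have hBR : (1 : ℝ) ≤ B := by exact_mod_cast g1
    have hB0 : (0 : ℝ) < B := by linarith
    have hp2 : 0 < lam ^ C2 := by positivity
    have hTJ : (2 * (J : ℝ) + 2) ≤ T := le_of_mul_le_mul_right (g12.trans hT) hp2
    have hTC : Cz / δ ≤ T := le_of_mul_le_mul_right (g13.trans hT) hp2
    have hTC' : Cz ≤ δ * T := by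
      rw [div_le_iff₀ hδ0] at hTC
      linarith
    have hT0 : (0 : ℝ) < T := by linarith
    have hT1 : 1 ≤ T := by
      have : (1 : ℝ) ≤ T := by linarith
      exact_mod_cast this
    have hTB : (T : ℝ) ≤ (B : ℝ) ^ 2 := by
      have e1 : T ≤ B ^ 2 := hT'.trans (by rw [pow_two]; exact Nat.mul_le_mul_right _ g7)
      exact_mod_cast e1
    obtain ⟨T1, hT1d⟩ : ∃ T1, T1 = T / J := ⟨_, rfl⟩
    have hT1T : T1 ≤ T := by rw [hT1d]; exact Nat.div_le_self _ _
    have hT1T' : (T1 : ℝ) ≤ T := by exact_mod_cast hT1T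
    have hT1J : (T : ℝ) ≤ 2 * J * T1 := by
      have e1 := Nat.div_add_mod T J
      have e2 := Nat.mod_lt T (by omega : J > 0)
      rw [← hT1d] at e1
      have e3 : (T : ℝ) < J * T1 + J := by
        have : T < J * T1 + J := by omega
        exact_mod_cast this
      linarith
    -- the exceptional sets
    obtain ⟨M, hM⟩ : ∃ M : ℕ → ℕ → Finset ℕ, M = fun (i τ : ℕ) =>
      (Ioc (hh B (i + 1)) (2 * hh B (i + 1))).filter fun b : ℕ =>
        δ * T < |∑ t ∈ Icc 1 τ, EE z (a * (t : ℤ) ^ 2 + b * t + c)| := ⟨_, rfl⟩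
    have hMcard : ∀ i < I, ∀ τ : ℕ, (T : ℝ) ≤ 2 * J * τ → τ ≤ T →
        ((M i τ).card : ℝ) ≤ e / (8 * (I + 1)) * B := by
      intro i hi τ hτ1 hτ2
      have k1 := hh_ge B (i + 1 + 1)
      have k2 := hh_le g1 (i + 1 + 1)
      have k3 : B ≤ 2 ^ (I + 1) * hh B (i + 1 + 1) :=
        k1.trans (Nat.mul_le_mul_right _ (Nat.pow_le_pow_right (by norm_num) (by omega)))
      have k4 : B1 ≤ hh B (i + 1 + 1) := by
        have := g3.trans k3
        exact Nat.le_of_mul_le_mul_left this (by positivity)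
      have k5 := hh_step B (i + 1)
      have k6 : hh B (i + 1 + 1) = (hh B (i + 1) + 1) / 2 := rfl
      obtain ⟨B', hB'd⟩ : ∃ B', B' = hh B (i + 1 + 1) := ⟨_, rfl⟩
      rw [← hB'd] at k1 k2 k3 k4 k5 k6
      have hB'0 : (1 : ℝ) ≤ B' := by exact_mod_cast k2.1
      have hB'B : (B' : ℝ) ≤ B := by exact_mod_cast k2.2
      have k3' : (B : ℝ) ≤ 2 ^ (I + 1) * B' := by exact_mod_cast k3
      have hl1 : Real.log B' ≤ lam := by
        rw [hlam]
        exact Real.log_le_log (by linarith) hB'B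
      have hl0 : 0 ≤ Real.log B' := Real.log_nonneg hB'0
      have hl2 : lam / 2 ≤ Real.log B' := by
        have e1 : lam ≤ (I + 1 : ℕ) * Real.log 2 + Real.log B' := by
          rw [hlam, ← Real.log_pow, ← Real.log_mul (by positivity) (by linarith)]
          exact Real.log_le_log hB0 k3'
        have e2 : 0 ≤ Real.log 2 := Real.log_nonneg (by norm_num)
        push_cast at e1
        linarith
      have hτT : (τ : ℝ) ≤ T := by exact_mod_cast hτ2
      have hτ0 : (0 : ℝ) ≤ τ := Nat.cast_nonneg τ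
      have c1 : (B' : ℝ) ≤ τ * Real.log B' ^ (C2 + 1) := by
        calc (B' : ℝ) ≤ B := hB'B
          _ ≤ T * lam ^ C2 := hT
          _ ≤ (2 * J * τ) * lam ^ C2 := by gcongr
          _ = τ * ((2 * J * 2 ^ (C2 + 1)) * lam ^ C2 / 2 ^ (C2 + 1)) := by
              field_simp
          _ ≤ τ * (lam * lam ^ C2 / 2 ^ (C2 + 1)) := by gcongr
          _ = τ * (lam / 2) ^ (C2 + 1) := by
              rw [div_pow, pow_succ' lam]
          _ ≤ τ * Real.log B' ^ (C2 + 1) := by gcongr
      have c0 : τ ≤ K₁ * 2 ^ (I + 1) * B' := by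
        calc τ ≤ T := hτ2
          _ ≤ K₁ * B := hT'
          _ ≤ K₁ * (2 ^ (I + 1) * B') := Nat.mul_le_mul_left _ k3
          _ = K₁ * 2 ^ (I + 1) * B' := by ring
      have c3 : 3 * (a.natAbs * τ + 5 * B') ≤ K' * B' := by
        rw [hK']
        calc 3 * (a.natAbs * τ + 5 * B') ≤ 3 * (a.natAbs * (K₁ * 2 ^ (I + 1) * B') + 5 * B') := by
              gcongr
          _ = 3 * (a.natAbs * (K₁ * 2 ^ (I + 1)) + 5) * B' := by ring
      have c2 : τ ≤ K' * B' := by
        have e1 : τ ≤ a.natAbs * τ := Nat.le_mul_of_pos_left τ ha1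
        omega
      have key := hB1 B' k4 τ (by rw [nd ha, pow_one]; exact c1) (by rw [nd ha, pow_one]; exact c2)
        (rge ha c3)
      have key2 : ∑ b ∈ Ioc (hh B (i + 1)) (2 * hh B (i + 1)),
          |∑ t ∈ Icc 1 τ, EE z (a * (t : ℤ) ^ 2 + b * t + c)| ≤
          δ * (e / (8 * (I + 1))) * (B' * τ) := by
        refine le_trans ?_ key
        refine le_trans (le_of_eq ?_) (Finset.sum_le_sum_of_subset_of_nonneg (s :=
          Ioc (hh B (i + 1)) (2 * hh B (i + 1))) ?_ fun b _ _ => abs_nonneg _)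
        · refine Finset.sum_congr rfl fun b _ => ?_
          refine congrArg abs (Finset.sum_congr rfl fun t _ => ?_)
          rw [ev]
          congr 1
          ring
        · intro b hb
          rw [mem_Ioc] at hb
          have e1 : 2 * B' ≤ b := by omega
          have e2 : (2 : ℝ) * B' ≤ b := by exact_mod_cast e1
          rw [mem_filter, mem_Ioc]
          refine ⟨⟨by omega, by omega⟩, ?_⟩
          linarith
      rw [hM]
      simp only
      refine markov _ (fun b : ℕ => |∑ t ∈ Icc 1 τ, EE z (a * (t : ℤ) ^ 2 + b * t + c)|)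
        (fun b => abs_nonneg _) (by positivity) ?_
      refine key2.trans ?_
      have e3 : (B' : ℝ) * τ ≤ B * T := by gcongr
      calc δ * (e / (8 * (I + 1))) * (B' * τ) ≤ δ * (e / (8 * (I + 1))) * (B * T) := by gcongr
        _ = e / (8 * (I + 1)) * B * (δ * T) := by ring
    -- the inclusion
    have hsub : (Icc 1 B).filter (fun b : ℕ => Admissible a b c ∧
        ¬ ∃ K : ℝ, IsC a b c K ∧
          |(count a b c T : ℝ) - 2 * K * ∑ t ∈ Icc 1 T,
            1 / Real.log ((a * (t : ℤ) ^ 2 + b * t + c : ℤ) : ℝ)| ≤ ε * (T / Real.log T)) ⊆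
        (Icc 1 (hh B I) ∪ (Icc 1 B).filter (fun b : ℕ => Admissible a b c ∧
          ¬ ∃ K : ℝ, IsC a b c K ∧ 0 ≤ K ∧ K ≤ K0 ∧ |2 * K - Sg a b c z| ≤ δ)) ∪
        (range I).biUnion fun i => M i T ∪ M i T1 := by
      intro b hb
      rw [mem_filter, mem_Icc] at hb
      obtain ⟨⟨hb1, hbB⟩, hadm, hno⟩ := hb
      by_contra hcon
      rw [mem_union, mem_union, not_or, not_or] at hcon
      obtain ⟨⟨n1, n2⟩, n3⟩ := hcon
      apply hno
      -- the constant
      have n2' : ∃ K : ℝ, IsC a b c K ∧ 0 ≤ K ∧ K ≤ K0 ∧ |2 * K - Sg a b c z| ≤ δ := by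
        by_contra h
        exact n2 (mem_filter.2 ⟨mem_Icc.2 ⟨hb1, hbB⟩, hadm, h⟩)
      obtain ⟨K, hK, hKn, hKK, hKS⟩ := n2'
      refine ⟨K, hK, ?_⟩
      have n1' : hh B I < b := by
        by_contra h
        exact n1 (mem_Icc.2 ⟨hb1, not_lt.1 h⟩)
      rcases cover B b I hbB with h | ⟨i, hi, hi1, hi2⟩
      · omega
      have n3' : ∀ τ, τ = T ∨ τ = T1 →
          |∑ t ∈ Icc 1 τ, EE z (a * (t : ℤ) ^ 2 + b * t + c)| ≤ δ * T := by
        intro τ hτ
        by_contra h
        push Not at h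
        apply n3
        rw [mem_biUnion]
        refine ⟨i, mem_range.2 hi, ?_⟩
        rw [mem_union]
        have hmem : b ∈ M i τ := by
          rw [hM]
          exact mem_filter.2 ⟨mem_Ioc.2 ⟨hi1, hi2⟩, h⟩
        rcases hτ with rfl | rfl
        · exact Or.inl hmem
        · exact Or.inr hmem
      have hS : ∀ τ, τ = T ∨ τ = T1 →
          |∑ t ∈ Icc 1 τ, Pool.Agent.N728.QL.lp (a * (t : ℤ) ^ 2 + b * t + c) - 2 * K * τ| ≤
            3 * δ * T := by
        intro τ hτ
        have hτT : (τ : ℝ) ≤ T := by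
          rcases hτ with rfl | rfl
          · exact le_rfl
          · exact hT1T'
        have e1 := n3' τ hτ
        have e2 := hloc b 0 τ (Nat.zero_le _)
        have e3 : (Ioc 0 τ) = Icc 1 τ := by
          ext t
          simp only [mem_Ioc, mem_Icc]
          omega
        rw [e3, Nat.cast_zero, sub_zero] at e2
        have e4 : ∑ t ∈ Icc 1 τ, Pool.Agent.N728.QL.lp (a * (t : ℤ) ^ 2 + b * t + c) =
            ∑ t ∈ Icc 1 τ, EE z (a * (t : ℤ) ^ 2 + b * t + c) +
              ∑ t ∈ Icc 1 τ, lz z (a * (t : ℤ) ^ 2 + b * t + c) := by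
          rw [← Finset.sum_add_distrib]
          refine Finset.sum_congr rfl fun t _ => ?_
          unfold EE
          ring
        have e5 : |(τ : ℝ) * Sg a b c z - 2 * K * τ| ≤ δ * T := by
          have : (τ : ℝ) * Sg a b c z - 2 * K * τ = -(τ * (2 * K - Sg a b c z)) := by ring
          rw [this, abs_neg, abs_mul, abs_of_nonneg (Nat.cast_nonneg τ), mul_comm δ]
          gcongr
        rw [e4]
        rw [abs_le] at *
        constructor <;> linarith [e1.1, e1.2, e2.1, e2.2, e5.1, e5.2]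
      have hbig : 2 * c.natAbs + 1 ≤ hh B I := by
        have := g4.trans (hh_ge B I)
        exact Nat.le_of_mul_le_mul_left this (by positivity)
      have hbc : 2 * |c| ≤ (b : ℤ) := by
        have e1 : 2 * c.natAbs ≤ b := by omega
        have e2 : ((2 * c.natAbs : ℕ) : ℤ) ≤ b := by exact_mod_cast e1
        push_cast at e2
        exact e2
      have hbR : (B : ℝ) ≤ 2 ^ I * b := by
        have e1 : B ≤ 2 ^ I * b := (hh_ge B I).trans (Nat.mul_le_mul_left _ n1'.le)
        exact_mod_cast e1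
      have hb0 : (1 : ℝ) ≤ b := by exact_mod_cast hb1
      have hl : lam / 2 ≤ Real.log (((b : ℤ) : ℝ) / 2) := by
        have e0 : (((b : ℤ) : ℝ)) = b := by push_cast; rfl
        rw [e0]
        have e1 : lam ≤ (I + 1 : ℕ) * Real.log 2 + Real.log ((b : ℝ) / 2) := by
          rw [hlam, ← Real.log_pow, ← Real.log_mul (by positivity) (by positivity)]
          refine Real.log_le_log hB0 (hbR.trans (le_of_eq ?_))
          rw [pow_succ]
          ring
        push_cast at e1
        linarith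
      have hfin := pt ha hbc (by exact_mod_cast hb1) hJ1 hT1d hlam0 hl g10 hT1 hKn hKK
        (by positivity) (hS T1 (Or.inr rfl)) (hS T (Or.inl rfl))
        (by rw [hδ]; nlinarith) he1 he0 hJK (by
          rw [div_le_iff₀ he0] at g11
          linarith)
      refine hfin.trans ?_
      have hlogT : Real.log T ≤ 2 * lam := by
        have e1 := Real.log_le_log hT0 hTB
        rw [Real.log_pow, ← hlam] at e1
        exact_mod_cast e1
      have hlogT0 : 0 < Real.log T := Real.log_pos (by linarith)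
      calc e * T / lam = 2 * e * T / (2 * lam) := by field_simp
        _ ≤ ε * T / (2 * lam) := by gcongr
        _ ≤ ε * T / Real.log T := by gcongr
        _ = ε * (T / Real.log T) := by ring
    have hcard := Finset.card_le_card hsub
    have c1 : (((Icc 1 (hh B I) ∪ (Icc 1 B).filter (fun b : ℕ => Admissible a b c ∧
          ¬ ∃ K : ℝ, IsC a b c K ∧ 0 ≤ K ∧ K ≤ K0 ∧ |2 * K - Sg a b c z| ≤ δ)) ∪
        (range I).biUnion fun i => M i T ∪ M i T1).card : ℝ) ≤ e * B := by
      have d1 : (((range I).biUnion fun i => M i T ∪ M i T1).card : ℝ) ≤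
          ∑ i ∈ range I, (((M i T).card : ℝ) + ((M i T1).card : ℝ)) := by
        have : ((range I).biUnion fun i => M i T ∪ M i T1).card ≤
            ∑ i ∈ range I, ((M i T).card + (M i T1).card) :=
          Finset.card_biUnion_le.trans (Finset.sum_le_sum fun i _ => Finset.card_union_le _ _)
        exact_mod_cast this
      have d2 : ∑ i ∈ range I, (((M i T).card : ℝ) + ((M i T1).card : ℝ)) ≤ e / 4 * B := by
        calc ∑ i ∈ range I, (((M i T).card : ℝ) + ((M i T1).card : ℝ))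
            ≤ ∑ _i ∈ range I, (e / (8 * (I + 1)) * B + e / (8 * (I + 1)) * B) := by
              refine Finset.sum_le_sum fun i hi => ?_
              rw [mem_range] at hi
              refine add_le_add (hMcard i hi T ?_ le_rfl) (hMcard i hi T1 hT1J hT1T)
              nlinarith
          _ = (I / (I + 1)) * (e / 4 * B) := by
              rw [Finset.sum_const, card_range, nsmul_eq_mul]
              field_simp
              ring
          _ ≤ 1 * (e / 4 * B) := by
              gcongr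
              rw [div_le_one (by positivity)]
              linarith
          _ = e / 4 * B := one_mul _
      have d3 : (((Icc 1 (hh B I)).card : ℕ) : ℝ) ≤ e / 4 * B := by
        rw [Nat.card_Icc]
        have e1 := hh_up B I
        have e2 : (B : ℝ) / 2 ^ I ≤ e / 8 * B := by
          rw [div_le_iff₀ (by positivity)]
          rw [div_le_iff₀ he0] at hI
          nlinarith
        rw [div_le_iff₀ he0] at g5
        have e3 : ((hh B I + 1 - 1 : ℕ) : ℝ) = hh B I := by simp
        rw [e3]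
        linarith
      have d4 := hB2 B g2
      have d5 := Finset.card_union_le (Icc 1 (hh B I) ∪ (Icc 1 B).filter (fun b : ℕ =>
        Admissible a b c ∧ ¬ ∃ K : ℝ, IsC a b c K ∧ 0 ≤ K ∧ K ≤ K0 ∧ |2 * K - Sg a b c z| ≤ δ))
        ((range I).biUnion fun i => M i T ∪ M i T1)
      have d6 := Finset.card_union_le (Icc 1 (hh B I)) ((Icc 1 B).filter (fun b : ℕ =>
        Admissible a b c ∧ ¬ ∃ K : ℝ, IsC a b c K ∧ 0 ≤ K ∧ K ≤ K0 ∧ |2 * K - Sg a b c z| ≤ δ))
      have d5' : (((Icc 1 (hh B I) ∪ (Icc 1 B).filter (fun b : ℕ => Admissible a b c ∧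
          ¬ ∃ K : ℝ, IsC a b c K ∧ 0 ≤ K ∧ K ≤ K0 ∧ |2 * K - Sg a b c z| ≤ δ)) ∪
        (range I).biUnion fun i => M i T ∪ M i T1).card : ℝ) ≤
        ((Icc 1 (hh B I)).card : ℝ) + (((Icc 1 B).filter (fun b : ℕ =>
        Admissible a b c ∧ ¬ ∃ K : ℝ, IsC a b c K ∧ 0 ≤ K ∧ K ≤ K0 ∧
          |2 * K - Sg a b c z| ≤ δ)).card : ℝ) +
        (((range I).biUnion fun i => M i T ∪ M i T1).card : ℝ) := by
        exact_mod_cast d5.trans (Nat.add_le_add_right d6 _)
      have d7 : 0 ≤ e * B := by positivity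
      linarith
    calc (((Icc 1 B).filter _).card : ℝ) ≤ _ := by exact_mod_cast hcard
      _ ≤ e * B := c1
      _ ≤ ε * B := by
          gcongr
          linarith
  obtain ⟨B0, hB0⟩ := Filter.eventually_atTop.1 hev
  exact ⟨B0, fun B hB T hT hT' => hB0 B hB T hT hT'⟩

end

end Pool.Agent.N362.QH
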